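import Pool.Agent.N206.CG.Stm2

/-!
Project CG, part CNTG: counting normal and characteristic subgroups of the wreath product.
-/

set_option autoImplicit false

namespace Pool.Agent.N364.CG

open Pool.Agent.N206.CG

/-- a normal subgroup of the square of a group whose normal subgroups are equal to their
commutators with the group is a product -/
theorem prod_of_normal {D : Type} [Group D]
    (h1 : ∀ N : Subgroup D, N.Normal → ∀ d ∈ N, d ∈ ⁅N, (⊤ : Subgroup D)⁆)
    (M : Subgroup (D × D)) (hM : M.Normal) :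
    M = (M.map (MonoidHom.fst D D)).prod (M.map (MonoidHom.snd D D)) := by
  have hf : Function.Surjective (MonoidHom.fst D D) := Prod.fst_surjective
  have hs : Function.Surjective (MonoidHom.snd D D) := Prod.snd_surjective
  have hA : ∀ a ∈ M.map (MonoidHom.fst D D), (a, (1 : D)) ∈ M := by
    intro a ha
    have h2 : ⁅M.map (MonoidHom.fst D D), (⊤ : Subgroup D)⁆ ≤ M.comap (MonoidHom.inl D D) := by
      rw [Subgroup.commutator_le]
      rintro _ ⟨m, hm, rfl⟩ g -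
      have h3 : m * (g, (1 : D)) * m⁻¹ * (g, (1 : D))⁻¹ ∈ M := by
        have h4 := hM.conj_mem m⁻¹ (M.inv_mem hm) (g, 1)
        have h5 := M.mul_mem hm h4
        have h6 : m * ((g, (1 : D)) * m⁻¹ * (g, (1 : D))⁻¹) =
            m * (g, (1 : D)) * m⁻¹ * (g, (1 : D))⁻¹ := by group
        rwa [h6] at h5
      have h4 : m * (g, (1 : D)) * m⁻¹ * (g, (1 : D))⁻¹ = MonoidHom.inl D D (m.1 * g * m.1⁻¹ * g⁻¹) := by
        apply Prod.ext
        · simp
        · simp
      rw [h4] at h3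
      exact h3
    exact h2 (h1 _ (hM.map _ hf) a ha)
  have hB : ∀ a ∈ M.map (MonoidHom.snd D D), ((1 : D), a) ∈ M := by
    intro a ha
    have h2 : ⁅M.map (MonoidHom.snd D D), (⊤ : Subgroup D)⁆ ≤ M.comap (MonoidHom.inr D D) := by
      rw [Subgroup.commutator_le]
      rintro _ ⟨m, hm, rfl⟩ g -
      have h3 : m * ((1 : D), g) * m⁻¹ * ((1 : D), g)⁻¹ ∈ M := by
        have h4 := hM.conj_mem m⁻¹ (M.inv_mem hm) (1, g)
        have h5 := M.mul_mem hm h4
        have h6 : m * (((1 : D), g) * m⁻¹ * ((1 : D), g)⁻¹) =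
            m * ((1 : D), g) * m⁻¹ * ((1 : D), g)⁻¹ := by group
        rwa [h6] at h5
      have h4 : m * ((1 : D), g) * m⁻¹ * ((1 : D), g)⁻¹ = MonoidHom.inr D D (m.2 * g * m.2⁻¹ * g⁻¹) := by
        apply Prod.ext
        · simp
        · simp
      rw [h4] at h3
      exact h3
    exact h2 (h1 _ (hM.map _ hs) a ha)
  ext ⟨a, b⟩
  rw [Subgroup.mem_prod]
  constructor
  · intro h
    exact ⟨⟨(a, b), h, rfl⟩, ⟨(a, b), h, rfl⟩⟩
  · rintro ⟨ha, hb⟩
    have h2 := M.mul_mem (hA a ha) (hB b hb)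
    simpa using h2

section

variable {L : Loc} (S : Sys L)

/-- the subgroup of the wreath product given by two subgroups of `D 0` -/
def psi (p : Subgroup (S.D 0) × Subgroup (S.D 0)) : Subgroup (GG S) :=
  (p.1.prod p.2).comap SemidirectProduct.rightHom

theorem surj : Function.Surjective (SemidirectProduct.rightHom : GG S →* S.D 0 × S.D 0) :=
  SemidirectProduct.rightHom_surjective

theorem mem_psi (p : Subgroup (S.D 0) × Subgroup (S.D 0)) (w : GG S) :
    w ∈ psi S p ↔ w.right.1 ∈ p.1 ∧ w.right.2 ∈ p.2 := Iff.rfl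

theorem index_psi (p : Subgroup (S.D 0) × Subgroup (S.D 0)) :
    (psi S p).index = p.1.index * p.2.index := by
  unfold psi
  rw [Subgroup.index_comap_of_surjective _ (surj S), Subgroup.index_prod]

/-- normal subgroups of finite index -/
theorem struct (h1 : S_COMM S) (h3 : S_W1 (S.D 0 × S.D 0) (UU S)) (h4 : S_UCORE S)
    (h5 : Infinite (S.D 0)) (N : Subgroup (GG S)) (hN : N.Normal) (hi : N.index ≠ 0) :
    ∃ p : Subgroup (S.D 0) × Subgroup (S.D 0), N = psi S p ∧ p.1.Normal ∧ p.2.Normal ∧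
      p.1.index ≠ 0 ∧ p.1.index ≤ N.index ∧ p.2.index ≠ 0 ∧ p.2.index ≤ N.index := by
  have hinf : Infinite (GG S) := by
    have : Infinite (S.D 0 × S.D 0) := inferInstance
    exact Infinite.of_injective _ (SemidirectProduct.inr_injective
      (φ := wact (S.D 0 × S.D 0) ((S.D 0 × S.D 0) ⧸ UU S) A5))
  have hne : N ≠ ⊥ := by
    intro h
    apply hi
    rw [h, Subgroup.index_bot, Nat.card_eq_zero_of_infinite]
  have hker : (SemidirectProduct.rightHom : GG S →* S.D 0 × S.D 0).ker ≤ N := by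
    rw [← SemidirectProduct.range_inl_eq_ker_rightHom]
    rintro _ ⟨k, rfl⟩
    exact h3 h4 N hN hne k
  obtain ⟨M, hM⟩ : ∃ M, M = N.map (SemidirectProduct.rightHom : GG S →* S.D 0 × S.D 0) := ⟨_, rfl⟩
  have hMn : M.Normal := by
    rw [hM]
    exact hN.map _ (surj S)
  have hNM : N = M.comap (SemidirectProduct.rightHom : GG S →* S.D 0 × S.D 0) := by
    rw [hM, Subgroup.comap_map_eq_self hker]
  have hprod := prod_of_normal (h1 0) M hMn
  refine ⟨(M.map (MonoidHom.fst _ _), M.map (MonoidHom.snd _ _)), ?_,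
    hMn.map _ Prod.fst_surjective, hMn.map _ Prod.snd_surjective, ?_⟩
  · unfold psi
    rw [← hprod]
    exact hNM
  · have hidx : N.index = (M.map (MonoidHom.fst _ _)).index * (M.map (MonoidHom.snd _ _)).index := by
      rw [← Subgroup.index_prod, ← hprod, hNM, Subgroup.index_comap_of_surjective _ (surj S)]
    rw [hidx] at hi ⊢
    have ha := left_ne_zero_of_mul hi
    have hb := right_ne_zero_of_mul hi
    exact ⟨ha, Nat.le_mul_of_pos_right _ (Nat.pos_of_ne_zero hb), hb,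
      Nat.le_mul_of_pos_left _ (Nat.pos_of_ne_zero ha)⟩

theorem t_CNTN {L : Loc} (S : Sys L) (h1 : S_COMM S) (h2 : S_CNT S)
    (h3 : S_W1 (S.D 0 × S.D 0) (UU S)) (h4 : S_UCORE S) (h5 : Infinite (S.D 0)) : S_CNTN S := by
  intro n
  obtain ⟨I, -, -, hfin, -⟩ := h2
  unfold sN
  refine Set.ncard_le_ncard_of_injOn (fun M => psi S (M, ⊤)) ?_ ?_ ?_
  · rintro M ⟨hM, hi, hn⟩
    have e := index_psi S (M, ⊤)
    rw [Subgroup.index_top, mul_one] at e
    refine ⟨?_, by rw [e]; exact hi, by rw [e]; exact hn⟩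
    have := hM
    exact (Subgroup.prod_normal M ⊤).comap _
  · intro M _ M' _ h
    have h' : psi S (M, ⊤) = psi S (M', ⊤) := h
    ext d
    have h6 : (SemidirectProduct.inr (d, (1 : S.D 0)) : GG S) ∈ psi S (M, ⊤) ↔
        (SemidirectProduct.inr (d, (1 : S.D 0)) : GG S) ∈ psi S (M', ⊤) := by rw [h']
    rw [mem_psi, mem_psi] at h6
    simpa using h6
  · refine (((hfin n).prod (hfin n)).image (psi S)).subset ?_
    rintro N ⟨hN, hi, hn⟩
    obtain ⟨p, rfl, q1, q2, q3, q4, q5, q6⟩ := struct S h1 h3 h4 h5 N hN hi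
    exact ⟨p, ⟨⟨q1, q3, q4.trans hn⟩, ⟨q2, q5, q6.trans hn⟩⟩, rfl⟩

theorem t_CNTC {L : Loc} (S : Sys L) (h1 : S_COMM S) (h2 : S_CNT S)
    (h3 : S_W1 (S.D 0 × S.D 0) (UU S)) (h4 : S_UCORE S) (h5 : Infinite (S.D 0))
    (h6 : S_W4 (S.D 0 × S.D 0) (UU S)) (h7 : HRules S) : S_CNTC S := by
  intro n
  obtain ⟨I, -, -, hfin, -⟩ := h2
  unfold sCh
  obtain ⟨T, hT⟩ : ∃ T : Set (Subgroup (S.D 0)),
    T = {N : Subgroup (S.D 0) | N.Normal ∧ JInv S N ∧ N.index ≠ 0 ∧ N.index ≤ n} := ⟨_, rfl⟩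
  rw [← hT]
  have hTf : T.Finite := by
    rw [hT]
    exact (hfin n).subset fun N h => ⟨h.1, h.2.2.1, h.2.2.2⟩
  have hsub : {N : Subgroup (GG S) | N.Characteristic ∧ N.index ≠ 0 ∧ N.index ≤ n} ⊆
      psi S '' (T ×ˢ T) := by
    rintro N ⟨hN, hi, hn⟩
    have := hN
    obtain ⟨p, hp, q1, q2, q3, q4, q5, q6⟩ := struct S h1 h3 h4 h5 N inferInstance hi
    have hinv : ∀ φ : MulAut (S.D 0 × S.D 0), (∀ h, h ∈ UU S ↔ φ h ∈ UU S) →
        ∀ d : S.D 0 × S.D 0, (d.1 ∈ p.1 ∧ d.2 ∈ p.2) → ((φ d).1 ∈ p.1 ∧ (φ d).2 ∈ p.2) := by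
      intro φ hφ d hd
      obtain ⟨Φ, -, hΦ, -⟩ := h6 φ hφ
      have h8 : (SemidirectProduct.inr d : GG S) ∈ N := by
        rw [hp, mem_psi]
        exact hd
      have h9 := (Subgroup.characteristic_iff_comap_eq.1 hN) Φ
      have h10 : Φ (SemidirectProduct.inr d : GG S) ∈ N := by
        rw [← h9] at h8
        exact h8
      rw [hp, mem_psi, hΦ] at h10
      exact h10
    have hj : ∀ h : S.D 0, h ∈ S.Hs ↔ S.jay 0 h ∈ S.Hs := h7.jmem
    refine ⟨p, ⟨?_, ?_⟩, hp.symm⟩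
    · rw [hT]
      refine ⟨q1, fun d hd => ?_, q3, q4.trans hn⟩
      have h8 := hinv ((S.jay 0).prodCongr (MulEquiv.refl _)) (fun h => by
        rw [Subgroup.mem_prod, Subgroup.mem_prod]
        exact and_congr (hj h.1) Iff.rfl) (d, 1) ⟨hd, p.2.one_mem⟩
      exact h8.1
    · rw [hT]
      refine ⟨q2, fun d hd => ?_, q5, q6.trans hn⟩
      have h8 := hinv ((MulEquiv.refl _).prodCongr (S.jay 0)) (fun h => by
        rw [Subgroup.mem_prod, Subgroup.mem_prod]
        exact and_congr Iff.rfl (hj h.2)) (1, d) ⟨p.1.one_mem, hd⟩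
      exact h8.2
  calc {N : Subgroup (GG S) | N.Characteristic ∧ N.index ≠ 0 ∧ N.index ≤ n}.ncard
      ≤ (psi S '' (T ×ˢ T)).ncard := Set.ncard_le_ncard hsub ((hTf.prod hTf).image _)
    _ ≤ (T ×ˢ T).ncard := Set.ncard_image_le (hTf.prod hTf)
    _ = T.ncard ^ 2 := by rw [Set.ncard_prod, sq]

end

end Pool.Agent.N364.CG
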